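import Pool.Agent.H82.RP.TA

/-!
# Board rpw_modules, row IGT: the sieve with weights on a small set of an arbitrary finite type
-/

set_option autoImplicit false
set_option linter.unusedSectionVars false

open Finset Real ArithmeticFunction
open scoped Nat ArithmeticFunction.Moebius

namespace Pool.Agent.H21.RPW

open Pool.Agent.H82.RP
open Pool.Agent.H30.BV (NX)
open Pool.Agent.H31.MP (RS Rgh Pz Me Om Omr Wt Lam QF V1 nu dvh Bx)

section
variable {I : Type} [Fintype I] [DecidableEq I]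

/-- the extension by `1` -/
noncomputable def ext (U : Finset I) (d : Fin U.card → ℕ) (i : I) : ℕ :=
  if hi : i ∈ U then d (U.equivFin ⟨i, hi⟩) else 1

/-- the enumeration of `U` -/
noncomputable def en (U : Finset I) (k : Fin U.card) : I := (U.equivFin.symm k : U)

lemma en_mem (U : Finset I) (k : Fin U.card) : en U k ∈ U := (U.equivFin.symm k).2

lemma en_inj (U : Finset I) : Function.Injective (en U) := by
  intro a b h
  have h2 : U.equivFin.symm a = U.equivFin.symm b := Subtype.ext h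
  exact U.equivFin.symm.injective h2

lemma en_surj (U : Finset I) (i : I) (hi : i ∈ U) : en U (U.equivFin ⟨i, hi⟩) = i := by
  simp [en]

lemma ext_en (U : Finset I) (d : Fin U.card → ℕ) (k : Fin U.card) : ext U d (en U k) = d k := by
  unfold ext
  rw [dif_pos (en_mem U k)]
  congr 1
  have h : (⟨en U k, en_mem U k⟩ : U) = U.equivFin.symm k := Subtype.ext rfl
  rw [h]
  simp

lemma ext_out (U : Finset I) (d : Fin U.card → ℕ) (i : I) (hi : i ∉ U) : ext U d i = 1 := by
  unfold ext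
  rw [dif_neg hi]

lemma ext_res (U : Finset I) (d : I → ℕ) (hd : ∀ i, i ∉ U → d i = 1) :
    ext U (fun k => d (en U k)) = d := by
  funext i
  by_cases hi : i ∈ U
  · unfold ext
    rw [dif_pos hi]
    show d (en U (U.equivFin ⟨i, hi⟩)) = d i
    rw [en_surj]
  · rw [ext_out U _ i hi, hd i hi]

lemma prod_U {M : Type} [CommMonoid M] (U : Finset I) (f : I → M) (hf : ∀ i, i ∉ U → f i = 1) :
    ∏ i, f i = ∏ k : Fin U.card, f (en U k) := by
  rw [← Finset.prod_subset (subset_univ U) (fun i _ hi => hf i hi)]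
  rw [← Finset.prod_coe_sort U f]
  exact (Equiv.prod_comp U.equivFin.symm (fun x : U => f x)).symm

lemma one_RS {z Y : ℝ} (hY : 1 ≤ Y) : (1 : ℕ) ∈ RS z Y := by
  classical
  unfold Pool.Agent.H31.MP.RS
  rw [Finset.mem_filter, Finset.mem_Icc]
  refine ⟨⟨le_refl 1, ?_⟩, squarefree_one, ?_⟩
  · exact Nat.le_floor (by simpa using hY)
  · intro p hp h
    exact absurd (Nat.dvd_one.1 h) hp.ne_one

lemma sum_ext {z Y : ℝ} (hY : 1 ≤ Y) (U : Finset I) (F : (I → ℕ) → ℝ)
    (hF : ∀ d, (∃ i, i ∉ U ∧ d i ≠ 1) → F d = 0) :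
    ∑ d ∈ BG I z Y, F d = ∑ d ∈ Bx U.card z Y, F (ext U d) := by
  classical
  rw [← Finset.sum_filter_add_sum_filter_not (BG I z Y) (fun d => ∀ i, i ∉ U → d i = 1)]
  have h0 : ∑ d ∈ (BG I z Y).filter (fun d => ¬ ∀ i, i ∉ U → d i = 1), F d = 0 := by
    refine Finset.sum_eq_zero ?_
    intro d hd
    have h := (Finset.mem_filter.1 hd).2
    push Not at h
    exact hF d h
  rw [h0, add_zero]
  refine Finset.sum_nbij' (fun d k => d (en U k)) (fun d => ext U d) ?_ ?_ ?_ ?_ ?_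
  · intro d hd
    have h := (Finset.mem_filter.1 hd).1
    unfold BG at h
    unfold Pool.Agent.H31.MP.Bx
    rw [Fintype.mem_piFinset] at h ⊢
    intro k
    exact h _
  · intro d hd
    unfold Pool.Agent.H31.MP.Bx at hd
    rw [Fintype.mem_piFinset] at hd
    rw [Finset.mem_filter]
    refine ⟨?_, fun i hi => ext_out U d i hi⟩
    unfold BG
    rw [Fintype.mem_piFinset]
    intro i
    by_cases hi : i ∈ U
    · have h := hd (U.equivFin ⟨i, hi⟩)
      unfold ext
      rw [dif_pos hi]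
      exact h
    · rw [ext_out U d i hi]
      exact one_RS hY
  · intro d hd
    exact ext_res U d (Finset.mem_filter.1 hd).2
  · intro d _
    funext k
    exact ext_en U d k
  · intro d hd
    rw [ext_res U d (Finset.mem_filter.1 hd).2]

/-- the weights on `Fin U.card` -/
noncomputable def lU (U : Finset I) (l : (I → ℕ) → ℝ) (d : Fin U.card → ℕ) : ℝ := l (ext U d)

lemma wt_lU {z Y C : ℝ} (U : Finset I) (l : (I → ℕ) → ℝ) (hl : WG U z Y C l) :
    Wt U.card z Y C (lU U l) := by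
  constructor
  · intro d hd
    obtain ⟨h1, h2, h3⟩ := hl.supp (ext U d) hd
    constructor
    · unfold Pool.Agent.H31.MP.Bx
      rw [Fintype.mem_piFinset]
      intro k
      unfold BG at h1
      rw [Fintype.mem_piFinset] at h1
      have h := h1 (en U k)
      rwa [ext_en] at h
    · rw [prod_U U (fun i => ext U d i) (fun i hi => ext_out U d i hi)] at h2
      have h4 : ∏ k : Fin U.card, ext U d (en U k) = ∏ k : Fin U.card, d k :=
        Finset.prod_congr rfl (fun k _ => ext_en U d k)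
      rwa [h4] at h2
  · intro d
    exact hl.bd _

lemma lG_eq {z Y C : ℝ} (hY : 1 ≤ Y) (U : Finset I) (l : (I → ℕ) → ℝ) (hl : WG U z Y C l)
    (P : I → ℕ) (n : ℕ) : LG z Y l P n = Lam z Y (lU U l) (fun k => P (en U k)) n := by
  classical
  unfold LG Pool.Agent.H31.MP.Lam
  rw [sum_ext hY U]
  · refine Finset.sum_congr rfl ?_
    intro d _
    have hiff : (∀ i, ext U d i ∣ n + P i) ↔ ∀ k, d k ∣ n + P (en U k) := by
      constructor
      · intro h k
        have h2 := h (en U k)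
        rwa [ext_en] at h2
      · intro h i
        by_cases hi : i ∈ U
        · have h2 := h (U.equivFin ⟨i, hi⟩)
          rw [en_surj] at h2
          unfold ext
          rw [dif_pos hi]
          exact h2
        · rw [ext_out U d i hi]
          exact one_dvd _
    by_cases hc : ∀ k, d k ∣ n + P (en U k)
    · rw [if_pos (hiff.2 hc), if_pos hc]
      rfl
    · rw [if_neg (fun h => hc (hiff.1 h)), if_neg hc]
  · rintro d ⟨i, hi, hd⟩
    have hl0 : l d = 0 := by
      by_contra h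
      exact hd ((hl.supp d h).2.2 i hi)
    rw [hl0, ite_self]

lemma qB_eq {z Y C : ℝ} (hY : 1 ≤ Y) (U : Finset I) (l : (I → ℕ) → ℝ) (hl : WG U z Y C l) :
    QB z Y l l = QF z Y (lU U l) := by
  classical
  have hz : ∀ d : I → ℕ, (∃ i, i ∉ U ∧ d i ≠ 1) → l d = 0 := by
    rintro d ⟨i, hi, hd⟩
    by_contra h
    exact hd ((hl.supp d h).2.2 i hi)
  unfold QB Pool.Agent.H31.MP.QF
  rw [sum_ext hY U]
  · refine Finset.sum_congr rfl ?_
    intro d _
    rw [sum_ext hY U]
    · refine Finset.sum_congr rfl ?_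
      intro e _
      rw [prod_U U (fun i => ((Nat.lcm (ext U d i) (ext U e i) : ℕ) : ℝ))
        (fun i hi => by rw [ext_out U d i hi, ext_out U e i hi]; simp)]
      have h4 : ∏ k : Fin U.card, ((Nat.lcm (ext U d (en U k)) (ext U e (en U k)) : ℕ) : ℝ) =
          ∏ k : Fin U.card, ((Nat.lcm (d k) (e k) : ℕ) : ℝ) :=
        Finset.prod_congr rfl (fun k _ => by rw [ext_en, ext_en])
      rw [h4]
      rfl
    · intro e he
      rw [hz e he]
      simp
  · intro d hd
    rw [hz d hd]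
    simp

lemma ex_iff (U : Finset I) (P : I → ℕ) (p n : ℕ) :
    (∃ k : Fin U.card, p ∣ n + P (en U k)) ↔ ∃ s ∈ U.image P, p ∣ n + s := by
  constructor
  · rintro ⟨k, hk⟩
    exact ⟨P (en U k), Finset.mem_image_of_mem P (en_mem U k), hk⟩
  · rintro ⟨s, hs, h⟩
    obtain ⟨i, hi, rfl⟩ := Finset.mem_image.1 hs
    exact ⟨U.equivFin ⟨i, hi⟩, by rwa [en_surj]⟩

lemma nS_eq (U : Finset I) (P : I → ℕ) (p : ℕ) :
    nS (U.image P) p = nu (fun k : Fin U.card => P (en U k)) p := by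
  classical
  unfold nS Pool.Agent.H31.MP.nu
  congr 1
  refine Finset.filter_congr ?_
  intro a _
  exact (ex_iff U P p a).symm

lemma vS_eq (U : Finset I) (P : I → ℕ) (y₀ : ℕ) (z : ℝ) :
    VS y₀ z (U.image P) = V1 y₀ z (fun k : Fin U.card => P (en U k)) := by
  unfold VS Pool.Agent.H31.MP.V1
  refine Finset.prod_congr rfl ?_
  intro p _
  rw [nS_eq]

lemma oS_eq (U : Finset I) (P : I → ℕ) (X : ℝ) (y₀ : ℕ) (z : ℝ) :
    OS X y₀ z (U.image P) = Omr X y₀ z (fun k : Fin U.card => P (en U k)) := by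
  classical
  unfold OS Pool.Agent.H31.MP.Omr
  refine Finset.filter_congr ?_
  intro n _
  unfold RH
  refine forall_congr' fun p => forall_congr' fun _ => ?_
  have h := ex_iff U P p n
  unfold Pool.Agent.H31.MP.dvh
  rw [h]
  push Not
  rfl

end

lemma om_card (X : ℝ) (y₀ : ℕ) : |((Om X y₀).card : ℝ) - NX X / primorial y₀| ≤ 1 := by
  classical
  have hW : 0 < primorial y₀ := primorial_pos y₀
  have hWr : (0 : ℝ) < primorial y₀ := by exact_mod_cast hW
  have h1 : Om X y₀ = (Ioc 0 (NX X)).filter fun n => n ≡ 1 [MOD primorial y₀] := by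
    unfold Pool.Agent.H31.MP.Om
    congr 1
  have h2 := Nat.Ioc_filter_modEq_card 0 (NX X) hW 1
  rw [h1]
  have h3 : ((((Ioc 0 (NX X)).filter fun n => n ≡ 1 [MOD primorial y₀]).card : ℤ) : ℝ) =
      ((max (⌊(((NX X : ℕ) : ℚ) - ((1 : ℕ) : ℚ)) / ((primorial y₀ : ℕ) : ℚ)⌋ -
        ⌊(((0 : ℕ) : ℚ) - ((1 : ℕ) : ℚ)) / ((primorial y₀ : ℕ) : ℚ)⌋) 0 : ℤ) : ℝ) := by
    rw [h2]
  have hWq : (0 : ℚ) < primorial y₀ := by exact_mod_cast hW
  have hW1 : (1 : ℚ) ≤ primorial y₀ := by exact_mod_cast hW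
  have h4 : ⌊(((0 : ℕ) : ℚ) - ((1 : ℕ) : ℚ)) / ((primorial y₀ : ℕ) : ℚ)⌋ = -1 := by
    rw [Int.floor_eq_iff]
    push_cast
    constructor
    · rw [le_div_iff₀ hWq]
      linarith
    · have h5 : (0 - 1 : ℚ) / (primorial y₀ : ℚ) < 0 := div_neg_of_neg_of_pos (by norm_num) hWq
      linarith
  rw [h4] at h3
  set F : ℤ := ⌊(((NX X : ℕ) : ℚ) - ((1 : ℕ) : ℚ)) / ((primorial y₀ : ℕ) : ℚ)⌋ with hF
  have hF1 : (F : ℚ) ≤ (((NX X : ℕ) : ℚ) - ((1 : ℕ) : ℚ)) / ((primorial y₀ : ℕ) : ℚ) :=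
    Int.floor_le _
  have hF2 : (((NX X : ℕ) : ℚ) - ((1 : ℕ) : ℚ)) / ((primorial y₀ : ℕ) : ℚ) < F + 1 :=
    Int.lt_floor_add_one _
  have hF1r : (F : ℝ) ≤ (((NX X : ℕ) : ℝ) - 1) / (primorial y₀ : ℝ) := by
    have := hF1
    have h6 : ((F : ℚ) : ℝ) ≤ (((((NX X : ℕ) : ℚ) - ((1 : ℕ) : ℚ)) / ((primorial y₀ : ℕ) : ℚ) : ℚ) : ℝ) := by
      exact_mod_cast this
    push_cast at h6
    exact h6
  have hF2r : (((NX X : ℕ) : ℝ) - 1) / (primorial y₀ : ℝ) < F + 1 := by
    have := hF2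
    have h6 : (((((NX X : ℕ) : ℚ) - ((1 : ℕ) : ℚ)) / ((primorial y₀ : ℕ) : ℚ) : ℚ) : ℝ) < (((F : ℚ) + 1 : ℚ) : ℝ) := by
      exact_mod_cast this
    push_cast at h6
    exact h6
  have hdiv : 0 ≤ 1 / (primorial y₀ : ℝ) ∧ 1 / (primorial y₀ : ℝ) ≤ 1 := by
    constructor
    · positivity
    · rw [div_le_one hWr]
      exact_mod_cast hW
  have hsub : (((NX X : ℕ) : ℝ) - 1) / (primorial y₀ : ℝ) =
      (NX X : ℝ) / primorial y₀ - 1 / (primorial y₀ : ℝ) := by ring
  have hFm : -1 ≤ F := by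
    by_contra hc
    push Not at hc
    have h7 : F + 1 ≤ -1 := by omega
    have h8 : ((F : ℝ) + 1) ≤ -1 := by exact_mod_cast h7
    have h9 : (0 : ℝ) ≤ (NX X : ℝ) / primorial y₀ := by positivity
    linarith [hdiv.2]
  have hmax : max (F - -1) 0 = F + 1 := by
    rw [sub_neg_eq_add]
    exact max_eq_left (by omega)
  rw [hmax] at h3
  push_cast at h3
  rw [h3, abs_le]
  constructor
  · linarith [hdiv.1, hdiv.2]
  · linarith [hdiv.1, hdiv.2]

theorem pf_IGT (h1 : T_IUQ) (_hDG : Pool.Agent.H31.MP.T_DG) : T_IGT := by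
  classical
  intro K
  have h1' : ∀ k : ℕ, ∃ C₁ : ℝ, 0 < C₁ ∧ ∀ η : ℝ, 0 < η → η ≤ 1 → ∃ b : ℕ,
      (b : ℝ) ≤ C₁ * (1 + Real.log (1 / η)) ∧ ∀ (y₀ A : ℕ) (δ C H₀ : ℝ),
      2 * (k + 1) + 2 ≤ y₀ → 0 < δ → δ * (4 * b + 6) ≤ 1 / 4 → 0 ≤ C → ∃ X₀ : ℝ, ∀ X : ℝ,
      X₀ ≤ X →
      ∀ (Y : ℝ) (h : Fin (k + 1) → ℕ) (l : (Fin (k + 1) → ℕ) → ℝ), Function.Injective h →
      (∀ i, (h i : ℝ) ≤ H₀ * Real.log X) → 1 ≤ Y → Y ≤ X ^ (1 / 4 : ℝ) →
      Wt (k + 1) (X ^ δ) Y C l →
        (1 - η) * (NX X / primorial y₀ * V1 y₀ (X ^ δ) h * QF (X ^ δ) Y l) -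
            X / Real.log X ^ A ≤
          ∑ n ∈ Omr X y₀ (X ^ δ) h, Lam (X ^ δ) Y l h n ^ 2 ∧
        ∑ n ∈ Omr X y₀ (X ^ δ) h, Lam (X ^ δ) Y l h n ^ 2 ≤
          (1 + η) * (NX X / primorial y₀ * V1 y₀ (X ^ δ) h * QF (X ^ δ) Y l) +
            X / Real.log X ^ A := fun k => h1 (k + 1) (by omega)
  choose C₁ hC₁ hb using h1'
  refine ⟨1 + ∑ k ∈ range K, C₁ k, ?_, ?_⟩
  · have : 0 ≤ ∑ k ∈ range K, C₁ k := Finset.sum_nonneg fun k _ => (hC₁ k).le
    linarith
  intro η hη hη1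
  have hb' := fun k => hb k η hη hη1
  choose b hb1 hb2 using hb'
  have hlog : 0 ≤ Real.log (1 / η) := Real.log_nonneg (by rw [le_div_iff₀ hη]; linarith)
  refine ⟨∑ k ∈ range K, b k, ?_, ?_⟩
  · push_cast
    calc ∑ k ∈ range K, (b k : ℝ) ≤ ∑ k ∈ range K, C₁ k * (1 + Real.log (1 / η)) :=
          Finset.sum_le_sum fun k _ => hb1 k
      _ = (∑ k ∈ range K, C₁ k) * (1 + Real.log (1 / η)) := by rw [Finset.sum_mul]
      _ ≤ (1 + ∑ k ∈ range K, C₁ k) * (1 + Real.log (1 / η)) :=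
          mul_le_mul_of_nonneg_right (by linarith) (by linarith)
  intro y₀ A δ C H₀ hy hδ hδb hC
  have hbk : ∀ k : Fin K, δ * (4 * (b k : ℝ) + 6) ≤ 1 / 4 := by
    intro k
    have h2 : (b k : ℕ) ≤ ∑ k ∈ range K, b k :=
      Finset.single_le_sum (f := b) (fun _ _ => Nat.zero_le _) (Finset.mem_range.2 k.2)
    have h3 : ((b k : ℕ) : ℝ) ≤ ((∑ k ∈ range K, b k : ℕ) : ℝ) := by exact_mod_cast h2
    have h4 : δ * (4 * (b k : ℝ) + 6) ≤ δ * (4 * ((∑ k ∈ range K, b k : ℕ) : ℝ) + 6) :=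
      mul_le_mul_of_nonneg_left (by linarith) hδ.le
    exact h4.trans hδb
  have hX := fun k : Fin K => hb2 k y₀ A δ C H₀ (by have := k.2; omega) hδ (hbk k) hC
  choose X₀ hX₀ using hX
  obtain ⟨M, hM⟩ := (Set.finite_range X₀).bddAbove
  have hsmall : ∀ᶠ X : ℝ in Filter.atTop, (C ^ 2 + 1) * Real.log X ^ A ≤ X := by
    have h2 := (isLittleO_pow_log_id_atTop (n := A)).bound
      (show (0 : ℝ) < 1 / (C ^ 2 + 1) by positivity)
    filter_upwards [h2, Filter.eventually_ge_atTop (1 : ℝ)] with X hX hX1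
    have hl : 0 ≤ Real.log X := Real.log_nonneg hX1
    rw [Real.norm_of_nonneg (pow_nonneg hl A), id, Real.norm_of_nonneg (by linarith)] at hX
    have hc : (0 : ℝ) < C ^ 2 + 1 := by positivity
    calc (C ^ 2 + 1) * Real.log X ^ A ≤ (C ^ 2 + 1) * (1 / (C ^ 2 + 1) * X) :=
          mul_le_mul_of_nonneg_left hX hc.le
      _ = X := by field_simp
  obtain ⟨M2, hM2⟩ := Filter.eventually_atTop.1 hsmall
  refine ⟨max (max M M2) 3, ?_⟩
  intro X hXM I _ _ P U Y l hU hP hPH hY hYX hl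
  have hXM1 : M ≤ X := le_trans (le_trans (le_max_left _ _) (le_max_left _ _)) hXM
  have hXM2 : M2 ≤ X := le_trans (le_trans (le_max_right _ _) (le_max_left _ _)) hXM
  have hX3 : 3 ≤ X := le_trans (le_max_right _ _) hXM
  rcases Nat.eq_zero_or_pos U.card with h0 | h0
  · -- the empty set
    rw [Finset.card_eq_zero] at h0
    subst h0
    have hlog1 : 0 < Real.log X := Real.log_pos (by linarith)
    have hfr : C ^ 2 ≤ X / Real.log X ^ A := by
      rw [le_div_iff₀ (pow_pos hlog1 A)]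
      have h2 := hM2 X hXM2
      have h3 : 0 ≤ Real.log X ^ A := (pow_pos hlog1 A).le
      nlinarith
    have hl1 : ∀ d : I → ℕ, l d ≠ 0 → d = fun _ => 1 := by
      intro d hd
      funext i
      exact (hl.supp d hd).2.2 i (Finset.notMem_empty i)
    have hone : (fun _ : I => (1 : ℕ)) ∈ BG I (X ^ δ) Y := by
      unfold BG
      rw [Fintype.mem_piFinset]
      intro i
      exact one_RS hY
    have hLG : ∀ n, LG (X ^ δ) Y l P n = l (fun _ => 1) := by
      intro n
      unfold LG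
      rw [Finset.sum_eq_single (fun _ : I => (1 : ℕ))]
      · rw [if_pos (fun i => one_dvd _)]
      · intro d _ hd
        have h4 : l d = 0 := by
          by_contra h
          exact hd (hl1 d h)
        rw [h4, ite_self]
      · intro h
        exact absurd hone h
    have hQB : QB (X ^ δ) Y l l = l (fun _ => 1) ^ 2 := by
      unfold QB
      rw [Finset.sum_eq_single (fun _ : I => (1 : ℕ))]
      · rw [Finset.sum_eq_single (fun _ : I => (1 : ℕ))]
        · simp
          ring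
        · intro d _ hd
          have h4 : l d = 0 := by
            by_contra h
            exact hd (hl1 d h)
          rw [h4]
          simp
        · intro h
          exact absurd hone h
      · intro d _ hd
        have h4 : l d = 0 := by
          by_contra h
          exact hd (hl1 d h)
        refine Finset.sum_eq_zero ?_
        intro e _
        rw [h4]
        simp
      · intro h
        exact absurd hone h
    have hOS : OS X y₀ (X ^ δ) ((∅ : Finset I).image P) = Om X y₀ := by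
      unfold OS
      rw [Finset.image_empty]
      refine Finset.filter_true_of_mem ?_
      intro n _ p _ s hs
      exact absurd hs (Finset.notMem_empty s)
    have hEE : EE X y₀ (X ^ δ) ((∅ : Finset I).image P) = NX X / primorial y₀ := by
      unfold EE VS
      rw [Finset.image_empty]
      have h5 : ∏ p ∈ Pz y₀ (X ^ δ), (1 - (nS ∅ p : ℝ) / p) = 1 := by
        refine Finset.prod_eq_one ?_
        intro p _
        have h6 : nS ∅ p = 0 := by
          unfold nS
          rw [Finset.card_eq_zero]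
          refine Finset.filter_eq_empty_iff.2 ?_
          rintro a _ ⟨s, hs, _⟩
          exact absurd hs (Finset.notMem_empty s)
        rw [h6]
        simp
      rw [h5, mul_one]
    rw [hOS, hEE, hQB]
    have hsum : ∑ n ∈ Om X y₀, LG (X ^ δ) Y l P n ^ 2 = (Om X y₀).card * l (fun _ => 1) ^ 2 := by
      rw [Finset.sum_congr rfl (fun n _ => by rw [hLG n]), Finset.sum_const, nsmul_eq_mul]
    rw [hsum]
    have hcard := abs_le.1 (om_card X y₀)
    have hlC : l (fun _ => 1) ^ 2 ≤ C ^ 2 := by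
      have h7 := hl.bd (fun _ => 1)
      exact sq_le_sq' (by linarith [(abs_le.1 h7).1]) (abs_le.1 h7).2
    have hl0 : 0 ≤ l (fun _ => 1) ^ 2 := sq_nonneg _
    have hN : 0 ≤ (NX X : ℝ) / primorial y₀ := by positivity
    set c := ((Om X y₀).card : ℝ)
    set N := (NX X : ℝ) / primorial y₀
    set q := l (fun _ => 1) ^ 2
    have ha : (c - N) * q ≤ 1 * q := mul_le_mul_of_nonneg_right hcard.2 hl0
    have hb3 : (-1) * q ≤ (c - N) * q := mul_le_mul_of_nonneg_right hcard.1 hl0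
    have hηN : 0 ≤ η * (N * q) := mul_nonneg hη.le (mul_nonneg hN hl0)
    constructor
    · nlinarith
    · nlinarith
  · obtain ⟨k, hk⟩ : ∃ k, U.card = k + 1 := ⟨U.card - 1, by omega⟩
    have hkK : k < K := by omega
    have hXk : X₀ ⟨k, hkK⟩ ≤ X := le_trans (hM (Set.mem_range_self _)) hXM1
    have hmain := hX₀ ⟨k, hkK⟩ X hXk
    have hinj : Function.Injective (fun j : Fin U.card => P (en U j)) := by
      intro a c hac
      exact en_inj U (hP (en_mem U a) (en_mem U c) hac)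
    have hPH' : ∀ j : Fin U.card, ((P (en U j) : ℕ) : ℝ) ≤ H₀ * Real.log X :=
      fun j => hPH _ (en_mem U j)
    have hgen : ∀ (n : ℕ) (_ : n = k + 1) (h : Fin n → ℕ) (l' : (Fin n → ℕ) → ℝ),
        Function.Injective h → (∀ i, (h i : ℝ) ≤ H₀ * Real.log X) → Wt n (X ^ δ) Y C l' →
        (1 - η) * (NX X / primorial y₀ * V1 y₀ (X ^ δ) h * QF (X ^ δ) Y l') -
            X / Real.log X ^ A ≤
          ∑ n ∈ Omr X y₀ (X ^ δ) h, Lam (X ^ δ) Y l' h n ^ 2 ∧
        ∑ n ∈ Omr X y₀ (X ^ δ) h, Lam (X ^ δ) Y l' h n ^ 2 ≤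
          (1 + η) * (NX X / primorial y₀ * V1 y₀ (X ^ δ) h * QF (X ^ δ) Y l') +
            X / Real.log X ^ A := by
      intro n hn h l' hi hH hW
      subst hn
      exact hmain Y h l' hi hH hY hYX hW
    have hfin := hgen U.card hk (fun j => P (en U j)) (lU U l) hinj hPH' (wt_lU U l hl)
    rw [oS_eq U P X y₀ (X ^ δ)]
    unfold EE
    rw [vS_eq U P y₀ (X ^ δ), qB_eq hY U l hl]
    have hs : ∑ n ∈ Omr X y₀ (X ^ δ) (fun k : Fin U.card => P (en U k)),
        LG (X ^ δ) Y l P n ^ 2 = ∑ n ∈ Omr X y₀ (X ^ δ) (fun k : Fin U.card => P (en U k)),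
        Lam (X ^ δ) Y (lU U l) (fun k => P (en U k)) n ^ 2 :=
      Finset.sum_congr rfl (fun n _ => by rw [lG_eq hY U l hl P n])
    rw [hs]
    exact hfin

end Pool.Agent.H21.RPW
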