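import Pool.Agent.H82.RP.TB

/-!
# Board rpw_modules, row QEE: the weights at a prime
-/

set_option autoImplicit false
set_option linter.unusedSectionVars false

open Finset Real ArithmeticFunction
open scoped Nat ArithmeticFunction.Moebius

namespace Pool.Agent.H21.RPW.QE

open Pool.Agent.H82.RP
open Pool.Agent.H31.MP (RS Rgh Pz Me Om Lam1 QF1)

section
variable {m : ℕ}

lemma one_RS {z Y : ℝ} (hY : 1 ≤ Y) : (1 : ℕ) ∈ RS z Y := by
  classical
  unfold Pool.Agent.H31.MP.RS
  rw [Finset.mem_filter, Finset.mem_Icc]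
  refine ⟨⟨le_refl 1, ?_⟩, squarefree_one, ?_⟩
  · exact Nat.le_floor (by simpa using hY)
  · intro p hp h
    exact absurd (Nat.dvd_one.1 h) hp.ne_one

lemma RS_pos {z Y : ℝ} {a : ℕ} (ha : a ∈ RS z Y) : 1 ≤ a := by
  classical
  unfold Pool.Agent.H31.MP.RS at ha
  exact (Finset.mem_Icc.1 (Finset.mem_filter.1 ha).1).1

/-- the weight of one variable -/
noncomputable def fH (g : ℕ → ℝ) (H : Finset (Fin m)) (i : Fin m) (a : ℕ) : ℝ :=
  if i ∈ H then g a ^ 2 / (a.totient : ℝ) else if a = 1 then 1 else 0

lemma fH_nonneg (g : ℕ → ℝ) (H : Finset (Fin m)) (i : Fin m) (a : ℕ) : 0 ≤ fH g H i a := by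
  unfold fH
  split_ifs
  · positivity
  · norm_num
  · norm_num

lemma sumF {z Y : ℝ} (hY : 1 ≤ Y) (g : ℕ → ℝ) (H : Finset (Fin m)) (i : Fin m) :
    ∑ a ∈ RS z Y, fH g H i a = if i ∈ H then sg z Y g else 1 := by
  unfold fH sg
  by_cases hi : i ∈ H
  · simp only [if_pos hi]
  · simp only [if_neg hi]
    rw [Finset.sum_ite_eq' (RS z Y) 1 (fun _ => (1 : ℝ)), if_pos (one_RS hY)]

lemma sumL {z Y : ℝ} (g : ℕ → ℝ) (H : Finset (Fin m)) (i : Fin m) :
    ∑ a ∈ RS z Y, Real.log a * fH g H i a = if i ∈ H then lg z Y g else 0 := by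
  unfold fH lg
  by_cases hi : i ∈ H
  · simp only [if_pos hi]
    refine Finset.sum_congr rfl ?_
    intro a _
    ring
  · simp only [if_neg hi]
    refine Finset.sum_eq_zero ?_
    intro a _
    split_ifs with h
    · rw [h]
      simp
    · simp

lemma sumB {z Y : ℝ} (hY : 1 ≤ Y) (g : ℕ → ℝ) (H : Finset (Fin m)) :
    ∑ r ∈ BG (Fin m) z Y, ∏ i, fH g H i (r i) = sg z Y g ^ H.card := by
  unfold BG
  rw [← Finset.prod_univ_sum (fun _ => RS z Y) (fun i a => fH g H i a)]
  rw [Finset.prod_congr rfl (fun i _ => sumF hY g H i)]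
  rw [Finset.prod_ite_mem univ H (fun _ => sg z Y g), Finset.univ_inter, Finset.prod_const]

lemma sumC {z Y : ℝ} (hY : 1 ≤ Y) (g : ℕ → ℝ) (H : Finset (Fin m)) :
    ∑ r ∈ BG (Fin m) z Y, (∑ i, Real.log (r i)) * ∏ i, fH g H i (r i) =
      H.card * (sg z Y g ^ (H.card - 1) * lg z Y g) := by
  classical
  have h1 : ∀ r : Fin m → ℕ, (∑ i, Real.log (r i)) * ∏ k, fH g H k (r k) =
      ∑ i, ∏ k, (if k = i then Real.log (r k) * fH g H k (r k) else fH g H k (r k)) := by
    intro r
    rw [Finset.sum_mul]
    refine Finset.sum_congr rfl ?_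
    intro i _
    have h2 : ∀ k, (if k = i then Real.log (r k) * fH g H k (r k) else fH g H k (r k)) =
        (if k = i then Real.log (r k) else 1) * fH g H k (r k) := by
      intro k
      split_ifs
      · rfl
      · rw [one_mul]
    rw [Finset.prod_congr rfl (fun k _ => h2 k), Finset.prod_mul_distrib]
    congr 1
    rw [Finset.prod_ite_eq' univ i (fun k => Real.log (r k)), if_pos (Finset.mem_univ i)]
  rw [Finset.sum_congr rfl (fun r _ => h1 r), Finset.sum_comm]
  have h3 : ∀ i : Fin m, ∑ r ∈ BG (Fin m) z Y,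
      ∏ k, (if k = i then Real.log (r k) * fH g H k (r k) else fH g H k (r k)) =
      if i ∈ H then sg z Y g ^ (H.card - 1) * lg z Y g else 0 := by
    intro i
    unfold BG
    rw [← Finset.prod_univ_sum (fun _ => RS z Y)
      (fun k a => if k = i then Real.log (a : ℝ) * fH g H k a else fH g H k a)]
    have h4 : ∀ k : Fin m, ∑ a ∈ RS z Y,
        (if k = i then Real.log (a : ℝ) * fH g H k a else fH g H k a) =
        Function.update (fun k => if k ∈ H then sg z Y g else 1) i
          (if i ∈ H then lg z Y g else 0) k := by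
      intro k
      by_cases hk : k = i
      · subst hk
        simp only [if_true, Function.update_self]
        exact sumL g H k
      · simp only [if_neg hk, Function.update_of_ne hk]
        exact sumF hY g H k
    rw [Finset.prod_congr rfl (fun k _ => h4 k)]
    rw [Finset.prod_update_of_mem (Finset.mem_univ i)]
    by_cases hi : i ∈ H
    · rw [if_pos hi, if_pos hi]
      rw [Finset.prod_ite_mem (univ \ {i}) H (fun _ => sg z Y g), Finset.prod_const]
      have h5 : (univ \ {i}) ∩ H = H.erase i := by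
        ext k
        simp only [Finset.mem_inter, Finset.mem_sdiff, Finset.mem_univ, true_and,
          Finset.mem_singleton, Finset.mem_erase]
      rw [h5, Finset.card_erase_of_mem hi]
      ring
    · rw [if_neg hi, if_neg hi, zero_mul]
  rw [Finset.sum_congr rfl (fun i _ => h3 i)]
  rw [Finset.sum_ite_mem univ H, Finset.univ_inter, Finset.sum_const, nsmul_eq_mul]

/-- the diagonal variable of `LE` -/
noncomputable def vH (z Y : ℝ) (g : ℕ → ℝ) (K : ℕ) (j : Fin m) (H : Finset (Fin m))
    (r : Fin m → ℕ) : ℝ :=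
  yH Y g H r + ∑ a ∈ RS z Y,
    (if H.card < K then yH Y g (insert j H) (Function.update r j a) else 0) / (a.totient : ℝ)

lemma LE_eq (z Y : ℝ) (g : ℕ → ℝ) (K : ℕ) (j : Fin m) (H : Finset (Fin m)) :
    LE z Y g K j H = fun d => lG z Y (yH Y g H) d +
      rs j (lG z Y (fun r => if H.card < K then yH Y g (insert j H) r else 0)) d := by
  funext d
  unfold Pool.Agent.H82.RP.LE LH
  by_cases hK : H.card < K
  · simp only [if_pos hK]
  · simp only [if_neg hK]
    have h0 : lG z Y (fun _ : Fin m → ℕ => (0 : ℝ)) d = 0 := by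
      unfold lG
      simp
    unfold rs
    rw [h0]
    simp

lemma vH_off {z Y : ℝ} (g : ℕ → ℝ) (K : ℕ) (j : Fin m) (H : Finset (Fin m)) (hj : j ∉ H)
    (r : Fin m → ℕ) (hr : r j = 1) (hs : ¬ ∀ i, r i ≠ 1 ↔ i ∈ H) : vH z Y g K j H r = 0 := by
  classical
  unfold vH
  have h1 : yH Y g H r = 0 := by
    unfold yH
    rw [if_neg]
    intro h
    exact hs h.1
  rw [h1, zero_add]
  refine Finset.sum_eq_zero ?_
  intro a _
  have h2 : yH Y g (insert j H) (Function.update r j a) = 0 := by
    unfold yH
    rw [if_neg]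
    intro h
    refine hs ?_
    intro i
    by_cases hi : i = j
    · subst hi
      simp [hr, hj]
    · have h3 := h.1 i
      rw [Function.update_of_ne hi] at h3
      rw [h3, Finset.mem_insert]
      simp [hi]
  rw [h2, ite_self, zero_div]

lemma vH_on {z Y : ℝ} (g : ℕ → ℝ) (hg1 : g 1 = 0) (K : ℕ) (j : Fin m) (H : Finset (Fin m))
    (hj : j ∉ H) (r : Fin m → ℕ) (hr : r j = 1) (hs : ∀ i, r i ≠ 1 ↔ i ∈ H) :
    vH z Y g K j H r = (∏ i ∈ H, (-g (r i))) *
      ((if ((∏ i, r i : ℕ) : ℝ) ≤ Y then 1 else 0) -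
        (if H.card < K then ∑ a ∈ RS z Y,
          (if (a : ℝ) * ((∏ i, r i : ℕ) : ℝ) ≤ Y then g a / (a.totient : ℝ) else 0) else 0)) := by
  classical
  unfold vH
  have h1 : yH Y g H r = (∏ i ∈ H, (-g (r i))) *
      (if ((∏ i, r i : ℕ) : ℝ) ≤ Y then 1 else 0) := by
    unfold yH
    by_cases hp : ((∏ i, r i : ℕ) : ℝ) ≤ Y
    · rw [if_pos ⟨hs, hp⟩, if_pos hp, mul_one]
    · rw [if_neg (fun h => hp h.2), if_neg hp, mul_zero]
  rw [h1, mul_sub, sub_eq_add_neg]
  congr 1
  by_cases hK : H.card < K
  · simp only [if_pos hK]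
    rw [Finset.mul_sum, ← Finset.sum_neg_distrib]
    refine Finset.sum_congr rfl ?_
    intro a _
    have hprod : (∏ i, Function.update r j a i : ℕ) = a * ∏ i, r i := by
      rw [Finset.prod_update_of_mem (Finset.mem_univ j)]
      congr 1
      rw [← Finset.prod_sdiff (Finset.subset_univ {j})]
      rw [Finset.prod_singleton, hr, mul_one]
    have hG : ∏ i ∈ insert j H, (-g (Function.update r j a i)) =
        -g a * ∏ i ∈ H, (-g (r i)) := by
      rw [Finset.prod_insert hj, Function.update_self]
      congr 1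
      refine Finset.prod_congr rfl ?_
      intro i hi
      have hij : i ≠ j := fun h => hj (h ▸ hi)
      rw [Function.update_of_ne hij]
    unfold yH
    by_cases ha : a = 1
    · rw [ha]
      rw [if_neg, hg1]
      · simp
      · intro h
        have h3 := (h.1 j).2 (Finset.mem_insert_self j H)
        rw [Function.update_self] at h3
        exact h3 rfl
    · have hsupp : ∀ i, Function.update r j a i ≠ 1 ↔ i ∈ insert j H := by
        intro i
        by_cases hi : i = j
        · subst hi
          simp [ha]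
        · rw [Function.update_of_ne hi, hs i, Finset.mem_insert]
          simp [hi]
      by_cases hp : (a : ℝ) * ((∏ i, r i : ℕ) : ℝ) ≤ Y
      · rw [if_pos hp, if_pos ⟨hsupp, by rw [hprod]; push_cast; push_cast at hp; exact hp⟩, hG]
        ring
      · rw [if_neg hp, if_neg]
        · simp
        · intro h
          apply hp
          have h4 := h.2
          rw [hprod] at h4
          push_cast at h4
          push_cast
          exact h4
  · simp only [if_neg hK]
    simp

lemma prod_fH (g : ℕ → ℝ) (H : Finset (Fin m)) (r : Fin m → ℕ)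
    (hs : ∀ i, r i ≠ 1 ↔ i ∈ H) :
    ∏ i, fH g H i (r i) = (∏ i ∈ H, (-g (r i))) ^ 2 / ∏ i, ((r i).totient : ℝ) := by
  classical
  have h1 : ∀ i, fH g H i (r i) = (if i ∈ H then (-g (r i)) ^ 2 else 1) / ((r i).totient : ℝ) := by
    intro i
    unfold fH
    by_cases hi : i ∈ H
    · rw [if_pos hi, if_pos hi]
      ring
    · have h2 : r i = 1 := by
        by_contra h
        exact hi ((hs i).1 h)
      rw [if_neg hi, if_neg hi, if_pos h2, h2]
      simp
  rw [Finset.prod_congr rfl (fun i _ => h1 i), Finset.prod_div_distrib,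
    Finset.prod_ite_mem univ H (fun i => (-g (r i)) ^ 2), Finset.univ_inter,
    Finset.prod_pow]

/-- the bound for one term -/
lemma term_le {z Y : ℝ} (hY : 1 < Y) (g : ℕ → ℝ) (hg : GH z Y g) (K : ℕ) (j : Fin m)
    (H : Finset (Fin m)) (hj : j ∉ H) (r : Fin m → ℕ) (hrB : r ∈ BG (Fin m) z Y)
    (hr : r j = 1) :
    vH z Y g K j H r ^ 2 / ∏ i, ((r i).totient : ℝ) ≤
      if H.card < K ∧ ((∏ i, r i : ℕ) : ℝ) ≤ Y ^ (3 / 4 : ℝ) then 0 else
        ∏ i, fH g H i (r i) := by
  classical
  have hW : 0 ≤ ∏ i, fH g H i (r i) := Finset.prod_nonneg fun i _ => fH_nonneg g H i _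
  by_cases hs : ∀ i, r i ≠ 1 ↔ i ∈ H
  · rw [vH_on g hg.one K j H hj r hr hs]
    set p : ℝ := ((∏ i, r i : ℕ) : ℝ) with hp
    set S : ℝ := ∑ a ∈ RS z Y, (if (a : ℝ) * p ≤ Y then g a / (a.totient : ℝ) else 0) with hS
    have hterm : ∀ a, 0 ≤ g a / (a.totient : ℝ) := fun a => div_nonneg (hg.nn a) (Nat.cast_nonneg _)
    have hS0 : 0 ≤ S := by
      refine Finset.sum_nonneg ?_
      intro a _
      split_ifs
      · exact hterm a
      · exact le_refl _
    have hS1 : S ≤ 1 := by
      rw [← hg.sum]
      refine Finset.sum_le_sum ?_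
      intro a _
      split_ifs
      · exact le_refl _
      · exact hterm a
    have hp1 : 1 ≤ p := by
      rw [hp]
      have : 1 ≤ ∏ i, r i := by
        refine Nat.one_le_iff_ne_zero.2 (Finset.prod_ne_zero_iff.2 ?_)
        intro i _
        unfold BG at hrB
        rw [Fintype.mem_piFinset] at hrB
        have := RS_pos (hrB i)
        omega
      exact_mod_cast this
    set D : ℝ := (if p ≤ Y then 1 else 0) - (if H.card < K then S else 0) with hD
    rw [mul_pow, mul_comm ((∏ i ∈ H, (-g (r i))) ^ 2) (D ^ 2), mul_div_assoc, ← prod_fH g H r hs]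
    have hDle : D ^ 2 ≤ 1 := by
      have h1 : |D| ≤ 1 := by
        rw [hD, abs_le]
        constructor
        · split_ifs <;> linarith
        · split_ifs <;> linarith
      have h2 := sq_le_sq' (by linarith [(abs_le.1 h1).1]) (abs_le.1 h1).2
      linarith
    split_ifs with hc
    · have hD0 : D = 0 := by
        have hpY : p ≤ Y := hc.2.trans (by
          calc Y ^ (3 / 4 : ℝ) ≤ Y ^ (1 : ℝ) :=
                Real.rpow_le_rpow_of_exponent_le hY.le (by norm_num)
            _ = Y := Real.rpow_one Y)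
        have hSe : S = 1 := by
          rw [hS, ← hg.sum]
          refine Finset.sum_congr rfl ?_
          intro a _
          split_ifs with h
          · rfl
          · have h3 : g a = 0 := by
              refine hg.supp a ?_
              by_contra h4
              push Not at h4
              apply h
              calc (a : ℝ) * p ≤ Y ^ (1 / 4 : ℝ) * Y ^ (3 / 4 : ℝ) :=
                    mul_le_mul h4 hc.2 (by linarith) (by positivity)
                _ = Y := by
                    rw [← Real.rpow_add (by linarith)]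
                    norm_num
            rw [h3]
            simp
        rw [hD, if_pos hpY, if_pos hc.1, hSe]
        norm_num
      rw [hD0]
      simp
    · calc D ^ 2 * ∏ i, fH g H i (r i) ≤ 1 * ∏ i, fH g H i (r i) :=
            mul_le_mul_of_nonneg_right hDle hW
        _ = _ := one_mul _
  · rw [vH_off g K j H hj r hr hs]
    split_ifs
    · simp
    · simpa using hW

end

theorem pf_QEE (h1 : T_QYI) (h2 : T_QQS) : T_QEE := by
  classical
  intro m K z Y g j H H' hY hg hj hj' hHK hHK'
  have hsupp : ∀ G : Finset (Fin m), j ∉ G → ∀ r : Fin m → ℕ, r j ≠ 1 → yH Y g G r = 0 := by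
    intro G hG r hr
    unfold yH
    rw [if_neg]
    intro h
    exact hG ((h.1 j).1 hr)
  have key : ∀ G G' : Finset (Fin m), j ∉ G → j ∉ G' →
      QB z Y (LE z Y g K j G) (LE z Y g K j G') =
        ∑ r ∈ (BG (Fin m) z Y).filter (fun r => r j = 1),
          vH z Y g K j G r * vH z Y g K j G' r / ∏ i, ((r i).totient : ℝ) := by
    intro G G' hG hG'
    rw [LE_eq z Y g K j G, LE_eq z Y g K j G']
    exact (h1 (Fin m) z Y (yH Y g G) (yH Y g G')).2 j
      (fun r => if G.card < K then yH Y g (insert j G) r else 0)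
      (fun r => if G'.card < K then yH Y g (insert j G') r else 0) (hsupp G hG) (hsupp G' hG')
  obtain ⟨-, -, -, hsg0, hsg1, hlg0⟩ := h2 z Y g H.card hY hg
  have hW : ∀ r : Fin m → ℕ, 0 ≤ ∏ i, fH g H i (r i) :=
    fun r => Finset.prod_nonneg fun i _ => fH_nonneg g H i _
  have hle : ∀ r ∈ (BG (Fin m) z Y).filter (fun r => r j = 1),
      vH z Y g K j H r * vH z Y g K j H r / ∏ i, ((r i).totient : ℝ) ≤
      if H.card < K ∧ ((∏ i, r i : ℕ) : ℝ) ≤ Y ^ (3 / 4 : ℝ) then 0 else
        ∏ i, fH g H i (r i) := by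
    intro r hr
    have h := Finset.mem_filter.1 hr
    have h3 := term_le hY g hg K j H hj r h.1 h.2
    rw [pow_two] at h3
    exact h3
  have hnn : 0 ≤ QB z Y (LE z Y g K j H) (LE z Y g K j H) := by
    rw [key H H hj hj]
    refine Finset.sum_nonneg ?_
    intro r _
    exact div_nonneg (mul_self_nonneg _) (Finset.prod_nonneg fun i _ => Nat.cast_nonneg _)
  have hup : QB z Y (LE z Y g K j H) (LE z Y g K j H) ≤
      ∑ r ∈ BG (Fin m) z Y, (if H.card < K ∧ ((∏ i, r i : ℕ) : ℝ) ≤ Y ^ (3 / 4 : ℝ) then 0 else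
        ∏ i, fH g H i (r i)) := by
    rw [key H H hj hj]
    refine (Finset.sum_le_sum hle).trans ?_
    refine Finset.sum_le_sum_of_subset_of_nonneg (Finset.filter_subset _ _) ?_
    intro r _ _
    split_ifs
    · exact le_refl _
    · exact hW r
  have hplain : QB z Y (LE z Y g K j H) (LE z Y g K j H) ≤ sg z Y g ^ H.card := by
    rw [← sumB hY.le g H]
    refine hup.trans (Finset.sum_le_sum ?_)
    intro r _
    split_ifs
    · exact hW r
    · exact le_refl _
  refine ⟨?_, hnn, ?_, hplain.trans (pow_le_one₀ hsg0 hsg1)⟩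
  · intro hne
    rw [key H H' hj hj']
    refine Finset.sum_eq_zero ?_
    intro r hr
    have hrj := (Finset.mem_filter.1 hr).2
    by_cases hs : ∀ i, r i ≠ 1 ↔ i ∈ H
    · have hs' : ¬ ∀ i, r i ≠ 1 ↔ i ∈ H' := by
        intro h
        apply hne
        ext i
        rw [← hs i, h i]
      rw [vH_off g K j H' hj' r hrj hs']
      simp
    · rw [vH_off g K j H hj r hrj hs]
      simp
  · unfold te
    split_ifs with hK
    · refine hup.trans ?_
      have hlY : 0 < Real.log Y := Real.log_pos hY
      have hstep : ∀ r ∈ BG (Fin m) z Y,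
          (if H.card < K ∧ ((∏ i, r i : ℕ) : ℝ) ≤ Y ^ (3 / 4 : ℝ) then 0 else
            ∏ i, fH g H i (r i)) ≤
          4 / (3 * Real.log Y) * ((∑ i, Real.log (r i)) * ∏ i, fH g H i (r i)) := by
        intro r hr
        unfold BG at hr
        rw [Fintype.mem_piFinset] at hr
        have hlog0 : 0 ≤ ∑ i, Real.log (r i) := by
          refine Finset.sum_nonneg ?_
          intro i _
          refine Real.log_nonneg ?_
          exact_mod_cast RS_pos (hr i)
        have hc : 0 ≤ 4 / (3 * Real.log Y) := by positivity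
        split_ifs with h
        · exact mul_nonneg hc (mul_nonneg hlog0 (hW r))
        · have h4 : Y ^ (3 / 4 : ℝ) < ((∏ i, r i : ℕ) : ℝ) := by
            by_contra h5
            exact h ⟨hK, not_lt.1 h5⟩
          have h6 : 3 / 4 * Real.log Y ≤ ∑ i, Real.log (r i) := by
            have h7 := Real.log_lt_log (by positivity) h4
            rw [Real.log_rpow (by linarith)] at h7
            have h8 : Real.log ((∏ i, r i : ℕ) : ℝ) = ∑ i, Real.log (r i) := by
              push_cast
              refine Real.log_prod ?_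
              intro i _
              have := RS_pos (hr i)
              have h9 : (r i : ℝ) ≠ 0 := by
                exact_mod_cast (show r i ≠ 0 by omega)
              exact h9
            rw [h8] at h7
            exact h7.le
          have h10 : 1 ≤ 4 / (3 * Real.log Y) * ∑ i, Real.log (r i) := by
            calc (1 : ℝ) = 4 / (3 * Real.log Y) * (3 / 4 * Real.log Y) := by
                  field_simp
              _ ≤ _ := mul_le_mul_of_nonneg_left h6 hc
          calc ∏ i, fH g H i (r i) = 1 * ∏ i, fH g H i (r i) := (one_mul _).symm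
            _ ≤ (4 / (3 * Real.log Y) * ∑ i, Real.log (r i)) * ∏ i, fH g H i (r i) :=
                mul_le_mul_of_nonneg_right h10 (hW r)
            _ = _ := by ring
      refine (Finset.sum_le_sum hstep).trans ?_
      rw [← Finset.mul_sum, sumC hY.le g H]
      unfold tq
      apply le_of_eq
      field_simp
    · exact hplain

end Pool.Agent.H21.RPW.QE
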