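import Pool.Agent.H82.RP.TA
import Pool.Agent.H82.RP.TB
import Pool.Agent.H82.RP.TC

/-!
# Board rpw_modules, row S1: the mean value
-/

set_option autoImplicit false

open Finset Real ArithmeticFunction
open scoped Nat ArithmeticFunction.Moebius

namespace Pool.Agent.H21.RPW.SA

open Pool.Agent.H82.RP
open Pool.Agent.H30.BV (NX)
open Pool.Agent.H31.MP (RS Rgh Pz Me Om UU)

lemma sum_HS {m : ℕ} (T : Finset (Fin m)) (K : ℕ) (F : Finset (Fin m) → ℝ) :
    ∑ H ∈ HS T K, F H = ∑ s ∈ range (K + 1), ∑ H ∈ T.powersetCard s, F H := by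
  classical
  rw [← Finset.sum_fiberwise_of_maps_to (s := HS T K) (t := range (K + 1))
    (g := fun H => H.card) (f := F)]
  · refine Finset.sum_congr rfl ?_
    intro s hs
    refine Finset.sum_congr ?_ (fun _ _ => rfl)
    ext H
    unfold HS
    rw [Finset.mem_filter, Finset.mem_filter, Finset.mem_powerset, Finset.mem_powersetCard]
    have := Finset.mem_range.1 hs
    constructor
    · rintro ⟨⟨h1, _⟩, h3⟩
      exact ⟨h1, h3⟩
    · rintro ⟨h1, h2⟩
      exact ⟨⟨h1, by omega⟩, h2⟩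
  · intro H hH
    unfold HS at hH
    have := (Finset.mem_filter.1 hH).2
    exact Finset.mem_range.2 (by omega)

lemma card_HS {m : ℕ} (T : Finset (Fin m)) (K : ℕ) : (HS T K).card ≤ (m + 1) ^ K := by
  classical
  have h1 : (HS T K).card = ∑ s ∈ range (K + 1), (T.powersetCard s).card := by
    have h := Finset.card_eq_sum_card_fiberwise (s := HS T K) (t := range (K + 1))
      (f := fun H => H.card) (by
        intro H hH
        have hH' := Finset.mem_coe.1 hH
        unfold HS at hH'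
        have := (Finset.mem_filter.1 hH').2
        exact Finset.mem_coe.2 (Finset.mem_range.2 (Nat.lt_succ_of_le this)))
    rw [h]
    refine Finset.sum_congr rfl ?_
    intro s hs
    congr 1
    ext H
    unfold HS
    rw [Finset.mem_filter, Finset.mem_filter, Finset.mem_powerset, Finset.mem_powersetCard]
    have := Finset.mem_range.1 hs
    constructor
    · rintro ⟨⟨h1, _⟩, h3⟩
      exact ⟨h1, h3⟩
    · rintro ⟨h1, h2⟩
      exact ⟨⟨h1, by omega⟩, h2⟩
  rw [h1, add_pow]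
  refine Finset.sum_le_sum ?_
  intro s hs
  rw [Finset.card_powersetCard, one_pow, mul_one]
  have hT : T.card ≤ m := by
    simpa using Finset.card_le_univ T
  have h2 : T.card.choose s ≤ m ^ s := (Nat.choose_le_pow T.card s).trans (Nat.pow_le_pow_left hT s)
  have h3 : 1 ≤ K.choose s := Nat.choose_pos (by have := Finset.mem_range.1 hs; omega)
  calc T.card.choose s ≤ m ^ s * 1 := by rw [mul_one]; exact h2
    _ ≤ m ^ s * K.choose s := Nat.mul_le_mul_left _ h3

lemma VS_empty (y₀ : ℕ) (z : ℝ) : VS y₀ z ∅ = 1 := by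
  classical
  unfold VS
  refine Finset.prod_eq_one ?_
  intro p _
  have h6 : nS ∅ p = 0 := by
    unfold nS
    rw [Finset.card_eq_zero]
    refine Finset.filter_eq_empty_iff.2 ?_
    rintro a _ ⟨s, hs, _⟩
    exact absurd hs (Finset.notMem_empty s)
  rw [h6]
  simp

lemma OS_empty (X : ℝ) (y₀ : ℕ) (z : ℝ) : OS X y₀ z ∅ = Om X y₀ := by
  classical
  unfold OS
  refine Finset.filter_true_of_mem ?_
  intro n _ p _ s hs
  exact absurd hs (Finset.notMem_empty s)

lemma log_sqrt {x : ℝ} (hx : 0 ≤ x) : Real.log (1 + x) ≤ 2 * √x := by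
  have h1 : Real.log (1 + x) = 2 * Real.log (√(1 + x)) := by
    rw [Real.log_sqrt (by linarith)]
    ring
  rw [h1]
  have h2 : Real.log (√(1 + x)) ≤ √(1 + x) - 1 :=
    Real.log_le_sub_one_of_pos (Real.sqrt_pos.2 (by linarith))
  have h3 : √(1 + x) ≤ 1 + √x := by
    rw [Real.sqrt_le_left (by positivity)]
    have := Real.sq_sqrt hx
    have h0 := Real.sqrt_nonneg x
    nlinarith
  linarith

/-- the final inequality -/
lemma final {S MAIN ηF CR ZL NW η T1 T2 M0 q : ℝ} (hη : 0 < η) (hη1 : η ≤ 1)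
    (hN : 0 ≤ NW) (hMAIN : MAIN = NW * M0) (h1 : T1 ≤ M0) (h2 : M0 ≤ T2) (hM0 : 0 ≤ M0)
    (hF : ηF ≤ η) (hab : |S - MAIN| ≤ ηF * MAIN + CR + ZL) (hCR : CR ≤ NW * (η / 4))
    (hZL : ZL ≤ NW * (η / 4)) (hq : q = η) :
    NW * ((1 - η) * T1 - q) ≤ S ∧ S ≤ NW * ((1 + η) * T2 + q) := by
  subst hq
  subst hMAIN
  have hb := abs_le.1 hab
  have h3 : ηF * (NW * M0) ≤ q * (NW * M0) :=
    mul_le_mul_of_nonneg_right hF (mul_nonneg hN hM0)
  have h4 : NW * T1 ≤ NW * M0 := mul_le_mul_of_nonneg_left h1 hN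
  have h5 : NW * M0 ≤ NW * T2 := mul_le_mul_of_nonneg_left h2 hN
  have h6 : (1 - q) * (NW * T1) ≤ (1 - q) * (NW * M0) :=
    mul_le_mul_of_nonneg_left h4 (by linarith)
  have h7 : (1 + q) * (NW * M0) ≤ (1 + q) * (NW * T2) :=
    mul_le_mul_of_nonneg_left h5 (by linarith)
  have h8 : 0 ≤ NW * q := mul_nonneg hN hη.le
  constructor
  · nlinarith [hb.1]
  · nlinarith [hb.2]

theorem pf_S1 (h1 : T_EXP) (h2 : T_QHH) (h3 : T_QQS) (h4 : T_LBH) (h5 : T_VSU) (h6 : T_VSL)
    (h7 : T_VCR) (hMR : Pool.Agent.H31.MP.T_MR) (h8 : T_VRI) : T_S1 := by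
  classical
  intro K η lam t hK hη hη1 ht htl
  obtain ⟨C₁, hC₁, hexp⟩ := h1 K
  obtain ⟨CV, yV, hCV, hV⟩ := h7 K
  obtain ⟨yU, hU⟩ := h5 K η hη
  obtain ⟨yL, hL⟩ := h6 K η hη hη1
  obtain ⟨c, CM, hc, hCM, hMe⟩ := hMR
  refine ⟨max (6 * K + 4) (max yU (max yL yV)), ?_⟩
  intro y₀ hy₀
  have hy1 : 6 * K + 4 ≤ y₀ := le_trans (le_max_left _ _) hy₀
  have hyU : yU ≤ y₀ := le_trans (le_trans (le_max_left _ _) (le_max_right _ _)) hy₀
  have hyL : yL ≤ y₀ :=
    le_trans (le_trans (le_trans (le_max_left _ _) (le_max_right _ _)) (le_max_right _ _)) hy₀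
  have hyV : yV ≤ y₀ :=
    le_trans (le_trans (le_trans (le_max_right _ _) (le_max_right _ _)) (le_max_right _ _)) hy₀
  have hlam : 0 < lam := lt_of_lt_of_le ht htl
  -- the constants
  set B : ℝ := lam * CM with hB
  have hBpos : 0 < B := mul_pos hlam hCM
  set A0 : ℝ := |Real.log (1 / η)| + |Real.log (8 * CV / η)| with hA0
  have hA0n : 0 ≤ A0 := by positivity
  set E : ℝ := 4 * C₁ * (1 + A0) + 6 with hE
  have hEpos : 0 < E := by positivity
  set Fq : ℝ := 16 * K * C₁ * √B with hFq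
  have hFn : 0 ≤ Fq := by positivity
  refine ⟨min (1 / (8 * E)) ((1 / (8 * (Fq + 1))) ^ 2), by positivity, ?_⟩
  intro δ hδ hδ1 H₀
  have hδE : δ * E ≤ 1 / 8 := by
    have h := hδ1.trans (min_le_left _ _)
    rw [le_div_iff₀ (by positivity)] at h
    linarith
  have hδF : Fq * √δ ≤ 1 / 8 := by
    have h := hδ1.trans (min_le_right _ _)
    have h9 : √δ ≤ 1 / (8 * (Fq + 1)) := by
      rw [Real.sqrt_le_left (by positivity)]
      exact h
    calc Fq * √δ ≤ (Fq + 1) * √δ :=
          mul_le_mul_of_nonneg_right (by linarith) (Real.sqrt_nonneg _)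
      _ ≤ (Fq + 1) * (1 / (8 * (Fq + 1))) := mul_le_mul_of_nonneg_left h9 (by positivity)
      _ = 1 / 8 := by field_simp
  set Q : ℝ := 8 * CV / η * (1 + B / δ) ^ (2 * K) with hQ
  have hBδ : 0 ≤ B / δ := by positivity
  have hQpos : 0 < Q := by positivity
  set ηF : ℝ := min η (1 / Q) with hηF
  have hηFpos : 0 < ηF := lt_min hη (by positivity)
  have hηF1 : ηF ≤ 1 := (min_le_left _ _).trans hη1
  obtain ⟨b, hb1, hb2⟩ := hexp ηF hηFpos hηF1
  have hlogF : Real.log (1 / ηF) ≤ A0 + 2 * K * (2 * √(B / δ)) := by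
    have hs0 : 0 ≤ 2 * (K : ℝ) * (2 * √(B / δ)) := by positivity
    rcases min_choice η (1 / Q) with h | h
    · rw [hηF, h]
      have := le_abs_self (Real.log (1 / η))
      have h9 := abs_nonneg (Real.log (8 * CV / η))
      linarith
    · rw [hηF, h, one_div_one_div, hQ, Real.log_mul (by positivity) (by positivity),
        Real.log_pow]
      have h9 := le_abs_self (Real.log (8 * CV / η))
      have h10 := abs_nonneg (Real.log (1 / η))
      have h11 := log_sqrt hBδ
      have h12 : ((2 * K : ℕ) : ℝ) * Real.log (1 + B / δ) ≤ 2 * K * (2 * √(B / δ)) := by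
        push_cast
        exact mul_le_mul_of_nonneg_left h11 (by positivity)
      linarith
  have hδb : δ * (4 * (b : ℝ) + 6) ≤ 1 / 4 := by
    have hbb : (b : ℝ) ≤ C₁ * (1 + (A0 + 2 * K * (2 * √(B / δ)))) :=
      hb1.trans (mul_le_mul_of_nonneg_left (by linarith) hC₁.le)
    have hsq : δ * √(B / δ) = √B * √δ := by
      rw [Real.sqrt_div hBpos.le]
      have h9 : √δ ≠ 0 := (Real.sqrt_pos.2 hδ).ne'
      have h10 : δ = √δ * √δ := (Real.mul_self_sqrt hδ.le).symm
      calc δ * (√B / √δ) = (√δ * √δ) * (√B / √δ) := by rw [← h10]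
        _ = √B * √δ := by field_simp
    calc δ * (4 * (b : ℝ) + 6) ≤
          δ * (4 * (C₁ * (1 + (A0 + 2 * K * (2 * √(B / δ))))) + 6) :=
          mul_le_mul_of_nonneg_left (by linarith) hδ.le
      _ = δ * E + 16 * K * C₁ * (δ * √(B / δ)) := by rw [hE]; ring
      _ = δ * E + Fq * √δ := by rw [hsq, hFq]; ring
      _ ≤ 1 / 4 := by linarith
  obtain ⟨CL, hCL, hLB⟩ := h4 K δ hδ
  set H₁ : ℝ := |H₀| + lam + 1 with hH₁
  obtain ⟨X1, hX1⟩ := hb2 y₀ 1 δ CL H₁ (by omega) hδ hδb hCL.le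
  obtain ⟨X2, hX2⟩ := hU y₀ hyU t δ H₀ ht hδ
  obtain ⟨X3, hX3⟩ := hL y₀ hyL t δ H₀ ht hδ
  obtain ⟨X4, hX4⟩ := hV y₀ hyV t δ H₀ ht hδ
  set W : ℝ := (primorial y₀ : ℝ) with hW
  have hWpos : 0 < W := by
    rw [hW]
    exact_mod_cast primorial_pos y₀
  refine ⟨max (max (max X1 X2) (max X3 X4))
    (max (max 3 ((2 : ℝ) ^ (1 / δ))) (Real.exp (4 * W / (3 * η) + 1))), ?_⟩
  intro Z hZ m a g hg hm1 hm2 ham
  have hZ1 : X1 ≤ Z :=
    le_trans (le_trans (le_trans (le_max_left _ _) (le_max_left _ _)) (le_max_left _ _)) hZ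
  have hZ2 : X2 ≤ Z :=
    le_trans (le_trans (le_trans (le_max_right _ _) (le_max_left _ _)) (le_max_left _ _)) hZ
  have hZ3 : X3 ≤ Z :=
    le_trans (le_trans (le_trans (le_max_left _ _) (le_max_right _ _)) (le_max_left _ _)) hZ
  have hZ4 : X4 ≤ Z :=
    le_trans (le_trans (le_trans (le_max_right _ _) (le_max_right _ _)) (le_max_left _ _)) hZ
  have hZ5 : 3 ≤ Z :=
    le_trans (le_trans (le_trans (le_max_left _ _) (le_max_left _ _)) (le_max_right _ _)) hZ
  have hZ6 : (2 : ℝ) ^ (1 / δ) ≤ Z :=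
    le_trans (le_trans (le_trans (le_max_right _ _) (le_max_left _ _)) (le_max_right _ _)) hZ
  have hZ7 : Real.exp (4 * W / (3 * η) + 1) ≤ Z :=
    le_trans (le_trans (le_max_right _ _) (le_max_right _ _)) hZ
  have hZpos : 0 < Z := by linarith
  have hlogZ : 4 * W / (3 * η) + 1 ≤ Real.log Z := by
    rw [Real.le_log_iff_exp_le hZpos]
    exact hZ7
  have hWη : 0 < 4 * W / (3 * η) := by positivity
  have hlog1 : 1 ≤ Real.log Z := by linarith
  have hlog0 : 0 < Real.log Z := by linarith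
  have hx2 : 2 ≤ Z ^ δ := by
    calc (2 : ℝ) = ((2 : ℝ) ^ (1 / δ)) ^ δ := by
          rw [← Real.rpow_mul (by norm_num), one_div_mul_cancel hδ.ne', Real.rpow_one]
      _ ≤ Z ^ δ := Real.rpow_le_rpow (by positivity) hZ6 hδ.le
  have hMe2 := hMe (Z ^ δ) hx2
  have hlogx : Real.log (Z ^ δ) = δ * Real.log Z := Real.log_rpow hZpos δ
  rw [hlogx] at hMe2
  have hδl : 0 < δ * Real.log Z := mul_pos hδ hlog0
  have hMe0 : 0 ≤ Me (Z ^ δ) := le_trans (by positivity) hMe2.1
  set L : ℝ := m * Me (Z ^ δ) with hLdef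
  have hL0 : 0 ≤ L := mul_nonneg (Nat.cast_nonneg _) hMe0
  have hLB' : L ≤ B / δ := by
    calc L ≤ (lam * Real.log Z) * (CM / (δ * Real.log Z)) :=
          mul_le_mul hm2 hMe2.2 hMe0 (by positivity)
      _ = B / δ := by rw [hB]; field_simp
  -- the parameter Y
  have hY1 : 1 < Z ^ (1 / 8 : ℝ) := Real.one_lt_rpow (by linarith) (by norm_num)
  have hY4 : Z ^ (1 / 8 : ℝ) ≤ Z ^ (1 / 4 : ℝ) :=
    Real.rpow_le_rpow_of_exponent_le (by linarith) (by norm_num)
  have hYZ : Z ^ (1 / 8 : ℝ) ≤ Z := by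
    calc Z ^ (1 / 8 : ℝ) ≤ Z ^ (1 : ℝ) :=
          Real.rpow_le_rpow_of_exponent_le (by linarith) (by norm_num)
      _ = Z := Real.rpow_one Z
  set Y : ℝ := Z ^ (1 / 8 : ℝ) with hYdef
  set z : ℝ := Z ^ δ with hzdef
  set T : Finset (Fin m) := Ad y₀ a m with hT
  have hcardG : ∀ H ∈ HS T K, H.card ≤ K := by
    intro H hH
    unfold HS at hH
    exact (Finset.mem_filter.1 hH).2
  have hinj : Function.Injective (pw a : Fin m → ℕ) := by
    intro i j hij
    unfold pw at hij
    exact Fin.ext (by omega)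
  have hH0le : H₀ * Real.log Z ≤ H₁ * Real.log Z := by
    refine mul_le_mul_of_nonneg_right ?_ hlog0.le
    have := le_abs_self H₀
    rw [hH₁]
    linarith
  have hPi : ∀ i : Fin m, ((pw a i : ℕ) : ℝ) ≤ H₁ * Real.log Z := by
    intro i
    have h9 : pw a i ≤ a + m := by
      unfold pw
      have := i.2
      omega
    have h10 : ((pw a i : ℕ) : ℝ) ≤ ((a + m : ℕ) : ℝ) := by exact_mod_cast h9
    exact h10.trans (ham.trans hH0le)
  have hGc : (((HS T K).card : ℕ) : ℝ) ≤ (H₁ * Real.log Z) ^ K := by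
    have h9 : (((HS T K).card : ℕ) : ℝ) ≤ (((m + 1) ^ K : ℕ) : ℝ) := by
      exact_mod_cast card_HS T K
    refine h9.trans ?_
    push_cast
    refine pow_le_pow_left₀ (by positivity) ?_ K
    have h10 : lam * Real.log Z + 1 ≤ H₁ * Real.log Z := by
      have h11 : (lam + 1) * Real.log Z ≤ H₁ * Real.log Z := by
        refine mul_le_mul_of_nonneg_right ?_ hlog0.le
        have := abs_nonneg H₀
        rw [hH₁]
        linarith
      linarith
    linarith
  have hWG : ∀ H ∈ HS T K, WG (∅ ∪ H) z Y CL (LH z Y g H) := by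
    intro H hH
    rw [Finset.empty_union]
    exact (hLB Z Y g m H (by linarith) hY1.le hYZ (fun a => ⟨hg.nn a, hg.le a⟩)
      (hcardG H hH)).1
  have hQB : ∀ H H' : Finset (Fin m), QB z Y (LH z Y g H) (LH z Y g H') =
      if H = H' then qq z Y g H.card else 0 := fun H H' => h2 m z Y g H H' hY1.le hg
  have hort : ∀ H ∈ HS T K, ∀ H' ∈ HS T K, H ≠ H' →
      QB z Y (LH z Y g H) (LH z Y g H') = 0 := by
    intro H _ H' _ hne
    rw [hQB, if_neg hne]
  have hmain := hX1 Z hZ1 (Fin m) (pw a) ∅ (HS T K) Y (fun H => LH z Y g H)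
    (by simp) hcardG hinj hPi hGc hY1.le hY4 hWG hort
  rw [Finset.image_empty, OS_empty] at hmain
  have hqq : ∀ s, 0 ≤ qq z Y g s ∧ qq z Y g s ≤ 1 := by
    intro s
    obtain ⟨ha, hb', -, hd, he, -⟩ := h3 z Y g s hY1 hg
    exact ⟨ha, hb'.trans (pow_le_one₀ hd he)⟩
  set NW : ℝ := (NX Z : ℝ) / primorial y₀ with hNW
  have hNW0 : 0 ≤ NW := by positivity
  have hVS0 : ∀ S : Finset ℕ, S.card ≤ 2 * K → 0 ≤ VS y₀ z S := by
    intro S hS
    obtain ⟨e, he⟩ := Infinite.exists_notMem_finset S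
    exact (h8 (2 * K) y₀ z S e hS (by omega) he).1.le
  have hps : ∀ H : Finset (Fin m), H.card ≤ K → (ps a H).card ≤ K := by
    intro H hH
    unfold ps
    exact Finset.card_image_le.trans hH
  -- the main term
  set M0 : ℝ := ∑ s ∈ range (K + 1), (∑ H ∈ T.powersetCard s, VS y₀ z (ps a H)) *
    qq z Y g s with hM0
  have hMAIN : ∑ H ∈ HS T K, EE Z y₀ z ((∅ ∪ H).image (pw a)) *
      QB z Y (LH z Y g H) (LH z Y g H) = NW * M0 := by
    rw [sum_HS, hM0, Finset.mul_sum]
    refine Finset.sum_congr rfl ?_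
    intro s _
    rw [← mul_assoc, Finset.mul_sum, Finset.sum_mul]
    refine Finset.sum_congr rfl ?_
    intro H hH
    rw [Finset.empty_union, hQB, if_pos rfl, (Finset.mem_powersetCard.1 hH).2]
    rfl
  have hVSn : ∀ s, s ≤ K → 0 ≤ ∑ H ∈ T.powersetCard s, VS y₀ z (ps a H) := by
    intro s hs
    refine Finset.sum_nonneg ?_
    intro H hH
    refine hVS0 _ ?_
    have := hps H (by rw [(Finset.mem_powersetCard.1 hH).2]; exact hs)
    omega
  have hM0n : 0 ≤ M0 := by
    rw [hM0]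
    refine Finset.sum_nonneg ?_
    intro s hs
    exact mul_nonneg (hVSn s (by have := Finset.mem_range.1 hs; omega)) (hqq s).1
  have hlow : TT z Y g K ((1 - η) * L) ≤ M0 := by
    unfold TT
    rw [hM0]
    refine Finset.sum_le_sum ?_
    intro s hs
    refine mul_le_mul_of_nonneg_right ?_ (hqq s).1
    exact hX3 Z hZ3 m a s (by have := Finset.mem_range.1 hs; omega) ham hm1
  have hupp : M0 ≤ TT z Y g K ((1 + η) * L) := by
    unfold TT
    rw [hM0]
    refine Finset.sum_le_sum ?_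
    intro s hs
    refine mul_le_mul_of_nonneg_right ?_ (hqq s).1
    have h9 := hX2 Z hZ2 ∅ m a s T (by simp) (by have := Finset.mem_range.1 hs; omega)
      (fun x hx => absurd hx (Finset.notMem_empty x)) ham hm1 (Finset.Subset.refl _)
      (Finset.disjoint_empty_left _)
    simp only [Finset.empty_union, VS_empty, mul_one] at h9
    exact h9
  -- the cross terms
  have hcross : ∑ H ∈ HS T K, ∑ H' ∈ (HS T K).filter (fun H' => H' ≠ H),
      EE Z y₀ z ((∅ ∪ (H ∪ H')).image (pw a)) *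
        (QB z Y (LH z Y g H) (LH z Y g H) + QB z Y (LH z Y g H') (LH z Y g H')) ≤
      2 * NW * (CV * (1 + L) ^ (2 * K)) := by
    have h9 := hX4 Z hZ4 ∅ m a T (by simp) (fun x hx => absurd hx (Finset.notMem_empty x)) ham
      hm1 (Finset.Subset.refl _) (Finset.disjoint_empty_left _)
    simp only [Finset.empty_union, VS_empty, mul_one] at h9
    calc ∑ H ∈ HS T K, ∑ H' ∈ (HS T K).filter (fun H' => H' ≠ H),
          EE Z y₀ z ((∅ ∪ (H ∪ H')).image (pw a)) *
          (QB z Y (LH z Y g H) (LH z Y g H) + QB z Y (LH z Y g H') (LH z Y g H'))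
        ≤ ∑ H ∈ HS T K, ∑ H' ∈ HS T K, 2 * NW * VS y₀ z (ps a H ∪ ps a H') := by
          refine Finset.sum_le_sum ?_
          intro H hH
          have hnn : ∀ H' ∈ HS T K, 0 ≤ 2 * NW * VS y₀ z (ps a H ∪ ps a H') := by
            intro H' hH'
            refine mul_nonneg (by positivity) (hVS0 _ ?_)
            have hu := Finset.card_union_le (ps a H) (ps a H')
            have h10 := hps H (hcardG H hH)
            have h11 := hps H' (hcardG H' hH')
            omega
          refine le_trans ?_ (Finset.sum_le_sum_of_subset_of_nonneg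
            (Finset.filter_subset (fun H' => H' ≠ H) (HS T K)) (fun H' hH' _ => hnn H' hH'))
          refine Finset.sum_le_sum ?_
          intro H' hH'
          have hH'' := (Finset.mem_filter.1 hH').1
          have hv := hnn H' hH''
          rw [Finset.empty_union, Finset.image_union, hQB, hQB, if_pos rfl, if_pos rfl]
          have h12 : EE Z y₀ z (H.image (pw a) ∪ H'.image (pw a)) =
              NW * VS y₀ z (ps a H ∪ ps a H') := rfl
          rw [h12]
          have h13 : 0 ≤ NW * VS y₀ z (ps a H ∪ ps a H') := by linarith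
          have h14 : qq z Y g H.card + qq z Y g H'.card ≤ 2 := by
            linarith [(hqq H.card).2, (hqq H'.card).2]
          calc NW * VS y₀ z (ps a H ∪ ps a H') * (qq z Y g H.card + qq z Y g H'.card) ≤
                NW * VS y₀ z (ps a H ∪ ps a H') * 2 := mul_le_mul_of_nonneg_left h14 h13
            _ = 2 * NW * VS y₀ z (ps a H ∪ ps a H') := by ring
      _ = 2 * NW * ∑ H ∈ HS T K, ∑ H' ∈ HS T K, VS y₀ z (ps a H ∪ ps a H') := by
          rw [Finset.mul_sum]
          refine Finset.sum_congr rfl ?_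
          intro H _
          rw [Finset.mul_sum]
      _ ≤ 2 * NW * (CV * (1 + L) ^ (2 * K)) :=
          mul_le_mul_of_nonneg_left h9 (by positivity)
  have hCR : ηF * (2 * NW * (CV * (1 + L) ^ (2 * K))) ≤ NW * (η / 4) := by
    have h9 : ηF ≤ 1 / Q := min_le_right _ _
    have h10 : (1 + L) ^ (2 * K) ≤ (1 + B / δ) ^ (2 * K) :=
      pow_le_pow_left₀ (by linarith) (by linarith) _
    calc ηF * (2 * NW * (CV * (1 + L) ^ (2 * K))) ≤
          1 / Q * (2 * NW * (CV * (1 + B / δ) ^ (2 * K))) := by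
          refine mul_le_mul h9 ?_ (by positivity) (by positivity)
          refine mul_le_mul_of_nonneg_left ?_ (by positivity)
          exact mul_le_mul_of_nonneg_left h10 hCV.le
      _ = NW * (η / 4) := by
          rw [hQ]
          have h11 : (1 + B / δ) ^ (2 * K) ≠ 0 := by positivity
          field_simp
          ring
  have hZL : Z / Real.log Z ^ 1 ≤ NW * (η / 4) := by
    rw [pow_one, div_le_iff₀ hlog0, hNW]
    have hN3 : 3 * Z ≤ (NX Z : ℝ) := by
      unfold Pool.Agent.H30.BV.NX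
      exact Nat.le_ceil _
    have h9 : 4 * W / (3 * η) ≤ Real.log Z := by linarith
    have h10 : 4 * W ≤ Real.log Z * (3 * η) := by
      rwa [div_le_iff₀ (by positivity)] at h9
    calc Z = 3 * Z / W * (η / 4) * (4 * W / (3 * η)) := by
          field_simp
      _ ≤ 3 * Z / W * (η / 4) * Real.log Z :=
          mul_le_mul_of_nonneg_left h9 (by positivity)
      _ ≤ (NX Z : ℝ) / primorial y₀ * (η / 4) * Real.log Z := by
          refine mul_le_mul_of_nonneg_right ?_ hlog0.le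
          refine mul_le_mul_of_nonneg_right ?_ (by positivity)
          exact div_le_div_of_nonneg_right hN3 hWpos.le
  have htw : ∑ n ∈ Om Z y₀, tw m y₀ K z Y g a n ^ 2 = ∑ n ∈ Om Z y₀,
      (∑ H ∈ HS T K, if RH y₀ z (H.image (pw a)) n then LG z Y (LH z Y g H) (pw a) n else 0) ^ 2 :=
    rfl
  have hab : |(∑ n ∈ Om Z y₀, tw m y₀ K z Y g a n ^ 2) - NW * M0| ≤
      ηF * (NW * M0) + ηF * (2 * NW * (CV * (1 + L) ^ (2 * K))) + Z / Real.log Z ^ 1 := by
    rw [htw, ← hMAIN]
    refine hmain.trans ?_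
    have h9 := mul_le_mul_of_nonneg_left hcross hηFpos.le
    linarith
  exact final hη hη1 hNW0 rfl hlow hupp hM0n (min_le_left _ _) hab hCR hZL rfl

end Pool.Agent.H21.RPW.SA
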